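import Pool.Agent.H88.ItLag

set_option autoImplicit false

namespace Pool.Agent.Results.MP_dc22f7_an.Counter

open Pool.Agent.H88.ItLag

theorem result : ∃ p : Polynomial ℝ, p.Monic ∧
    (∀ z : ℂ, Polynomial.aeval z p = 0 → z.im = 0 ∧ z.re < 0) ∧
    T (fun x => p.eval x) 4 5 0 < 0 :=
  ⟨P, P_monic, P_roots, neg⟩

end Pool.Agent.Results.MP_dc22f7_an.Counter
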